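import Pool.Agent.Work.MP_2738db_nt_A.Interface

/-!
Block COR of Theorem W for the Fermat-Catalan conjecture: the main determinant inequality.
-/

set_option autoImplicit false

namespace Pool.Agent.Work.MP_2738db_nt_A.helper76

open Finset NumberField Pool.Agent.Work.MP_2738db_nt_A

lemma abv_det_le {F : Type*} [Field F] (v : AbsoluteValue F ℝ) {ι : Type*} [Fintype ι]
    [DecidableEq ι] (A : Matrix ι ι F) (b : ι → ℝ) (h : ∀ i j, v (A i j) ≤ b i) :
    v A.det ≤ (Fintype.card ι).factorial * ∏ i, b i := by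
  rw [← Matrix.det_transpose, Matrix.det_apply']
  refine (v.sum_le _ _).trans ?_
  calc ∑ σ : Equiv.Perm ι, v (((Equiv.Perm.sign σ : ℤ) : F) * ∏ i, A.transpose (σ i) i)
      ≤ ∑ _σ : Equiv.Perm ι, ∏ i, b i := by
        apply Finset.sum_le_sum
        intro σ _
        rw [map_mul, map_prod]
        have h1 : v ((Equiv.Perm.sign σ : ℤ) : F) = 1 := by
          rcases Int.units_eq_one_or (Equiv.Perm.sign σ) with h2 | h2 <;> simp [h2]
        rw [h1, one_mul]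
        apply Finset.prod_le_prod
        · intro i _; exact v.nonneg _
        · intro i _; exact h i (σ i)
    _ = (Fintype.card ι).factorial * ∏ i, b i := by
        rw [Finset.sum_const, Finset.card_univ, Fintype.card_perm, nsmul_eq_mul]

/-- the integral matrix -/
def NN {O : Type} [CommRing O] (x₁ x₂ y₁ y₂ : O) (ℓ K L R S : ℕ)
    (g : Fin K × Fin L → Fin R × Fin (S + L)) : Matrix (Fin K × Fin L) (Fin K × Fin L) O :=
  Matrix.of fun i j => (Nat.choose (((g j).1 : ℕ) + ((g j).2 : ℕ) * ℓ) i.1 : O) *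
    (y₂ ^ ((g j).1 : ℕ) * y₁ ^ (R - (g j).1 : ℕ) *
      (x₁ ^ ((g j).2 : ℕ) * x₂ ^ (S + L - (g j).2 : ℕ))) ^ (i.2 : ℕ)

/-- the matrix of the zero estimate -/
def MM {T : Type} [CommRing T] (X Y : T) (ℓ K L R S : ℕ)
    (g : Fin K × Fin L → Fin R × Fin (S + L)) : Matrix (Fin K × Fin L) (Fin K × Fin L) T :=
  Matrix.of fun i j => (Nat.choose (((g j).1 : ℕ) + ((g j).2 : ℕ) * ℓ) i.1 : T) *
    (X ^ ((g j).1 : ℕ) * Y ^ ((g j).2 : ℕ)) ^ (i.2 : ℕ)

lemma det_NN {O T : Type} [CommRing O] [CommRing T] (f : O →+* T) (x₁ x₂ y₁ y₂ : O) (X Y : T)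
    (hX : f y₂ = X * f y₁) (hY : f x₁ = Y * f x₂) (ℓ K L R S : ℕ)
    (g : Fin K × Fin L → Fin R × Fin (S + L)) :
    f (NN x₁ x₂ y₁ y₂ ℓ K L R S g).det =
      (∏ i : Fin K × Fin L, (f y₁ ^ R * f x₂ ^ (S + L)) ^ (i.2 : ℕ)) *
        (MM X Y ℓ K L R S g).det := by
  rw [RingHom.map_det, ← Matrix.det_mul_column]
  congr 1
  funext i j
  simp only [RingHom.mapMatrix_apply, Matrix.map_apply, NN, MM, Matrix.of_apply, map_mul, map_pow,
    map_natCast]
  have h1 : f y₂ ^ ((g j).1 : ℕ) * f y₁ ^ (R - (g j).1 : ℕ) = X ^ ((g j).1 : ℕ) * f y₁ ^ R := by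
    rw [hX, mul_pow, mul_assoc, ← pow_add, Nat.add_sub_cancel' (g j).1.2.le]
  have h2 : f x₁ ^ ((g j).2 : ℕ) * f x₂ ^ (S + L - (g j).2 : ℕ) =
      Y ^ ((g j).2 : ℕ) * f x₂ ^ (S + L) := by
    rw [hY, mul_pow, mul_assoc, ← pow_add, Nat.add_sub_cancel' (g j).2.2.le]
  rw [h1, h2]
  ring

/-- local valuation of the determinant -/
lemma local_dvd (hVal : Stmt_Val) {T : Type} [CommRing T] (p X Y : T) (ℓ K L R S Z M : ℕ)
    (hX : p ∣ X - 1) (hY : p ^ M ∣ Y - X ^ ℓ) (hK : 1 ≤ K) (hL : 1 ≤ L) (hM : K * L ≤ M)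
    (hZ : R + (S + L) * ℓ ≤ Z) (g : Fin K × Fin L → Fin R × Fin (S + L)) :
    p ^ (K * K * ∑ l ∈ range L, l) ∣ (MM X Y ℓ K L R S g).det := by
  obtain ⟨hV1, hV2, hV3⟩ := hVal
  let zz : Fin R × Fin (S + L) → ℕ := fun t => (t.1 : ℕ) + (t.2 : ℕ) * ℓ
  have hzz : ∀ t, zz t ≤ Z := by
    intro t
    have h1 : (t.1 : ℕ) ≤ R := t.1.2.le
    have h2 : (t.2 : ℕ) * ℓ ≤ (S + L) * ℓ := Nat.mul_le_mul_right _ t.2.2.le
    simp only [zz]; omega
  have hpow : ∀ t : Fin R × Fin (S + L), p ^ M ∣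
      X ^ (t.1 : ℕ) * Y ^ (t.2 : ℕ) - X ^ (zz t) := by
    intro t
    have h3 : X ^ (t.1 : ℕ) * Y ^ (t.2 : ℕ) - X ^ (zz t)
        = X ^ (t.1 : ℕ) * (Y ^ (t.2 : ℕ) - (X ^ ℓ) ^ (t.2 : ℕ)) := by
      simp only [zz]
      rw [pow_add, mul_comm (t.2 : ℕ) ℓ, pow_mul]
      ring
    rw [h3]
    exact Dvd.dvd.mul_left (hY.trans (sub_dvd_pow_sub_pow _ _ _)) _
  have hG : ∀ i j : Fin K × Fin L, ∃ G : T, MM X Y ℓ K L R S g i j =
      (∑ m ∈ range (Z + 1), nc (X ^ (i.2 : ℕ)) i.1 m * (Nat.choose (zz (g j)) m : T)) +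
        p ^ M * G := by
    intro i j
    rw [← hV3 T (X ^ (i.2 : ℕ)) i.1 (zz (g j)) Z (hzz (g j))]
    have h1 : p ^ M ∣ (X ^ ((g j).1 : ℕ) * Y ^ ((g j).2 : ℕ)) ^ (i.2 : ℕ)
        - (X ^ (zz (g j))) ^ (i.2 : ℕ) := (hpow (g j)).trans (sub_dvd_pow_sub_pow _ _ _)
    obtain ⟨G, hG⟩ := h1
    refine ⟨(Nat.choose (zz (g j)) i.1 : T) * G, ?_⟩
    simp only [MM, Matrix.of_apply]
    have h2 : (X ^ (i.2 : ℕ)) ^ (zz (g j)) = (X ^ (zz (g j))) ^ (i.2 : ℕ) := by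
      rw [← pow_mul, ← pow_mul, mul_comm]
    rw [h2]
    linear_combination (Nat.choose (zz (g j)) i.1 : T) * hG
  choose G hG using hG
  have hEeq : MM X Y ℓ K L R S g = Matrix.of fun i j =>
      (∑ m ∈ range (Z + 1), nc (X ^ (i.2 : ℕ)) i.1 m * (Nat.choose (zz (g j)) m : T)) +
        p ^ M * G i j := by
    funext i j
    exact hG i j
  have hcard : Fintype.card (Fin K × Fin L) = K * L := by simp
  rw [hEeq]
  apply hV1 T (Fin K × Fin L) p Z M (K * K * ∑ l ∈ range L, l) (fun i => (i.1 : ℕ))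
    (fun i m => nc (X ^ (i.2 : ℕ)) i.1 m) (fun m j => (Nat.choose (zz (g j)) m : T)) G
  · intro i m
    apply hV2
    exact hX.trans (by simpa using sub_dvd_pow_sub_pow X 1 (i.2 : ℕ))
  · rw [hcard]; exact hM
  · rw [hcard, Fintype.sum_prod_type]
    simp only [Finset.sum_const, Finset.card_univ, Fintype.card_fin, smul_eq_mul]
    rw [← Finset.mul_sum, Fin.sum_univ_eq_sum_range (fun k => k) K]
    have h1 := Finset.sum_range_id_mul_two L
    have h2 := Finset.sum_range_id_mul_two K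
    rw [Nat.le_div_iff_mul_le (by norm_num)]
    obtain ⟨L', rfl⟩ : ∃ L', L = L' + 1 := ⟨L - 1, by omega⟩
    obtain ⟨K', rfl⟩ : ∃ K', K = K' + 1 := ⟨K - 1, by omega⟩
    simp only [Nat.add_sub_cancel] at h1 h2
    have h3 : (K' + 1) * (L' + 1) - 1 = K' * L' + K' + L' := by
      have : (K' + 1) * (L' + 1) = K' * L' + K' + L' + 1 := by ring
      omega
    rw [h3]
    nlinarith [h1, h2]

/-- the determinant lies in `P ^ V` -/
lemma det_mem (hVal : Stmt_Val) {O : Type} [CommRing O] [IsDedekindDomain O] (P : Ideal O)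
    (x₁ x₂ y₁ y₂ : O) (ℓ K L R S Z M : ℕ) (hP : P.IsPrime) (hP0 : P ≠ ⊥)
    (hx₂ : x₂ ∉ P) (hy₁ : y₁ ∉ P) (hy : y₁ - y₂ ∈ P)
    (hxy : x₁ * y₁ ^ ℓ - x₂ * y₂ ^ ℓ ∈ P ^ M) (hK : 1 ≤ K) (hL : 1 ≤ L) (hM : K * L ≤ M)
    (hZ : R + (S + L) * ℓ ≤ Z) (g : Fin K × Fin L → Fin R × Fin (S + L)) :
    (NN x₁ x₂ y₁ y₂ ℓ K L R S g).det ∈ P ^ (K * K * ∑ l ∈ range L, l) := by
  classical
  let T : Type := Localization.AtPrime P
  have hdvr : IsDiscreteValuationRing T :=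
    IsLocalization.AtPrime.isDiscreteValuationRing_of_dedekind_domain O hP0 T
  let f : O →+* T := algebraMap O T
  obtain ⟨p, hp⟩ := IsDiscreteValuationRing.exists_irreducible T
  have hmax : P.map f = Ideal.span {p} := by
    rw [← hp.maximalIdeal_eq]
    exact Localization.AtPrime.map_eq_maximalIdeal
  have hmem : ∀ (n : ℕ) (a : O), a ∈ P ^ n → p ^ n ∣ f a := by
    intro n a ha
    have h1 : f a ∈ (P ^ n).map f := Ideal.mem_map_of_mem f ha
    rw [Ideal.map_pow, hmax, Ideal.span_singleton_pow, Ideal.mem_span_singleton] at h1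
    exact h1
  have hunit : ∀ a : O, a ∉ P → IsUnit (f a) := by
    intro a ha
    exact IsLocalization.map_units (M := P.primeCompl) T ⟨a, ha⟩
  obtain ⟨ux, hux⟩ := hunit x₂ hx₂
  obtain ⟨uy, huy⟩ := hunit y₁ hy₁
  let X : T := f y₂ * ((uy⁻¹ : Tˣ) : T)
  let Y : T := f x₁ * ((ux⁻¹ : Tˣ) : T)
  have hX : f y₂ = X * f y₁ := by
    simp only [X]
    rw [← huy, mul_assoc, Units.inv_mul, mul_one]
  have hY : f x₁ = Y * f x₂ := by
    simp only [Y]
    rw [← hux, mul_assoc, Units.inv_mul, mul_one]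
  have hX1 : p ∣ X - 1 := by
    have h1 := hmem 1 (y₁ - y₂) (by rwa [pow_one])
    rw [pow_one, map_sub, hX] at h1
    have h2 : f y₁ - X * f y₁ = -(X - 1) * uy := by rw [huy]; ring
    rw [h2, Units.dvd_mul_right, dvd_neg] at h1
    exact h1
  have hY1 : p ^ M ∣ Y - X ^ ℓ := by
    have h1 := hmem M _ hxy
    rw [map_sub, map_mul, map_mul, map_pow, map_pow, hX, hY] at h1
    have h2 : Y * f x₂ * f y₁ ^ ℓ - f x₂ * (X * f y₁) ^ ℓ
        = (Y - X ^ ℓ) * ((ux * uy ^ ℓ : Tˣ) : T) := by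
      rw [Units.val_mul, Units.val_pow_eq_pow_val, hux, huy]; ring
    rw [h2, Units.dvd_mul_right] at h1
    exact h1
  have hdvd := local_dvd hVal p X Y ℓ K L R S Z M hX1 hY1 hK hL hM hZ g
  have hdvd2 : p ^ (K * K * ∑ l ∈ range L, l) ∣ f (NN x₁ x₂ y₁ y₂ ℓ K L R S g).det := by
    rw [det_NN f x₁ x₂ y₁ y₂ X Y hX hY]
    exact Dvd.dvd.mul_left hdvd _
  have hin : f (NN x₁ x₂ y₁ y₂ ℓ K L R S g).det ∈
      (P ^ (K * K * ∑ l ∈ range L, l)).map f := by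
    rw [Ideal.map_pow, hmax, Ideal.span_singleton_pow, Ideal.mem_span_singleton]
    exact hdvd2
  rw [IsLocalization.mem_map_algebraMap_iff P.primeCompl T] at hin
  obtain ⟨⟨a, s⟩, has⟩ := hin
  have hinj : Function.Injective f :=
    IsLocalization.injective T (Ideal.primeCompl_le_nonZeroDivisors P)
  have h3 : (NN x₁ x₂ y₁ y₂ ℓ K L R S g).det * (s : O) = a := by
    apply hinj
    rw [map_mul]
    exact has
  have h4 : (s : O) * (NN x₁ x₂ y₁ y₂ ℓ K L R S g).det ∈ P ^ (K * K * ∑ l ∈ range L, l) := by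
    have h6 : (s : O) * (NN x₁ x₂ y₁ y₂ ℓ K L R S g).det =
        (NN x₁ x₂ y₁ y₂ ℓ K L R S g).det * (s : O) := mul_comm _ _
    rw [h6, h3]
    exact a.2
  rcases Ideal.IsPrime.mul_mem_pow P h4 with h5 | h5
  · exact absurd h5 s.2
  · exact h5

theorem stmt_Cor (hVal : Stmt_Val) (hZer : Stmt_Zer) (hNrm : Stmt_Nrm) : Stmt_Cor := by
  intro K _ _ P x₁ x₂ y₁ y₂ ℓ K' L R S Z M A B C hP hP0 hx₁ hx₂ hy₁ hy₂ hy hndg hxy hA hB
    hy₁A hy₂A hx₁B hx₂B hℓ hR hKL hK' hL hM hZ hC hC0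
  classical
  have hx₁0 : (x₁ : K) ≠ 0 := by
    intro h
    apply hx₁
    have : x₁ = 0 := by exact_mod_cast h
    rw [this]; exact P.zero_mem
  have hx₂0 : (x₂ : K) ≠ 0 := by
    intro h
    apply hx₂
    have : x₂ = 0 := by exact_mod_cast h
    rw [this]; exact P.zero_mem
  have hy₁0 : (y₁ : K) ≠ 0 := by
    intro h
    apply hy₁
    have : y₁ = 0 := by exact_mod_cast h
    rw [this]; exact P.zero_mem
  have hy₂0 : (y₂ : K) ≠ 0 := by
    intro h
    apply hy₂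
    have : y₂ = 0 := by exact_mod_cast h
    rw [this]; exact P.zero_mem
  obtain ⟨g, hg⟩ := hZer K ((y₂ : K) / y₁) ((x₁ : K) / x₂) ℓ K' L R S (div_ne_zero hy₂0 hy₁0)
    (div_ne_zero hx₁0 hx₂0) (by
      intro i j hij hjL h
      apply hndg i j hij hjL
      rw [div_pow, div_pow, div_eq_div_iff (pow_ne_zero _ hx₂0) (pow_ne_zero _ hx₂0)] at h
      apply RingOfIntegers.coe_injective
      push_cast
      exact h) hℓ hR hKL hK' hL
  let D : 𝓞 K := (NN x₁ x₂ y₁ y₂ ℓ K' L R S g).det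
  have hD0 : D ≠ 0 := by
    intro h0
    have h1 := det_NN (algebraMap (𝓞 K) K) x₁ x₂ y₁ y₂ ((y₂ : K) / y₁) ((x₁ : K) / x₂)
      (by rw [div_mul_cancel₀]; exact hy₁0) (by rw [div_mul_cancel₀]; exact hx₂0) ℓ K' L R S g
    have h2 : (algebraMap (𝓞 K) K) (NN x₁ x₂ y₁ y₂ ℓ K' L R S g).det = 0 := by
      have : (NN x₁ x₂ y₁ y₂ ℓ K' L R S g).det = 0 := h0
      rw [this, map_zero]
    rw [h2] at h1
    rcases mul_eq_zero.mp h1.symm with h3 | h3
    · rw [Finset.prod_eq_zero_iff] at h3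
      obtain ⟨i, _, hi⟩ := h3
      exact (pow_ne_zero _ (mul_ne_zero (pow_ne_zero _ hy₁0) (pow_ne_zero _ hx₂0))) hi
    · exact hg h3
  have hDP : D ∈ P ^ (K' * K' * ∑ l ∈ range L, l) :=
    det_mem hVal P x₁ x₂ y₁ y₂ ℓ K' L R S Z M hP hP0 hx₂ hy₁ hy hxy hK' hL hM hZ g
  have hcard : Fintype.card (Fin K' × Fin L) = K' * L := by simp
  have hsize : HB K D (Real.log ((K' * L).factorial) + K' * L * C +
        (K' * ∑ l ∈ range L, l : ℕ) * (R * A + (S + L) * B)) := by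
    intro v
    have h1 : ((D : 𝓞 K) : K) = ((NN x₁ x₂ y₁ y₂ ℓ K' L R S g).map (algebraMap (𝓞 K) K)).det := by
      rw [← RingHom.mapMatrix_apply, ← RingHom.map_det]
    rw [h1]
    have hentry : ∀ i j, v.1 (((NN x₁ x₂ y₁ y₂ ℓ K' L R S g).map (algebraMap (𝓞 K) K)) i j) ≤
        Real.exp (C + (i.2 : ℕ) * (R * A + (S + L) * B)) := by
      intro i j
      simp only [Matrix.map_apply, NN, Matrix.of_apply, map_mul, map_pow, map_natCast]
      have hr : ((g j).1 : ℕ) ≤ R := (g j).1.2.le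
      have ht : ((g j).2 : ℕ) ≤ S + L := (g j).2.2.le
      have hz : ((g j).1 : ℕ) + ((g j).2 : ℕ) * ℓ ≤ Z := by
        have h2 : ((g j).2 : ℕ) * ℓ ≤ (S + L) * ℓ := Nat.mul_le_mul_right _ ht
        omega
      have e1 : v.1 ((Nat.choose (((g j).1 : ℕ) + ((g j).2 : ℕ) * ℓ) i.1 : ℕ) : K) ≤
          Real.exp C := by
        have h2 : v.1 ((Nat.choose (((g j).1 : ℕ) + ((g j).2 : ℕ) * ℓ) i.1 : ℕ) : K)
            = (Nat.choose (((g j).1 : ℕ) + ((g j).2 : ℕ) * ℓ) i.1 : ℝ) := by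
          have h3 := InfinitePlace.norm_embedding_eq v
            ((Nat.choose (((g j).1 : ℕ) + ((g j).2 : ℕ) * ℓ) i.1 : ℕ) : K)
          rw [map_natCast, Complex.norm_natCast] at h3
          exact h3.symm
        rw [h2]
        exact hC _ i.1.2 _ hz
      have hpw : ∀ (x : K) (E : ℝ) (a : ℕ), v.1 x ≤ Real.exp E → v.1 x ^ a ≤ Real.exp (a * E) := by
        intro x E a hx
        rw [Real.exp_nat_mul]
        exact pow_le_pow_left₀ (v.1.nonneg _) hx a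
      have e2 : v.1 (y₂ : K) ^ ((g j).1 : ℕ) * v.1 (y₁ : K) ^ (R - (g j).1 : ℕ) ≤
          Real.exp (R * A) := by
        have h2 := hpw (y₂ : K) A ((g j).1 : ℕ) (hy₂A v)
        have h3 := hpw (y₁ : K) A (R - (g j).1 : ℕ) (hy₁A v)
        refine (mul_le_mul h2 h3 (pow_nonneg (v.1.nonneg _) _) (Real.exp_nonneg _)).trans ?_
        rw [← Real.exp_add, Nat.cast_sub hr]
        apply Real.exp_le_exp.mpr
        apply le_of_eq; ring
      have e3 : v.1 (x₁ : K) ^ ((g j).2 : ℕ) * v.1 (x₂ : K) ^ (S + L - (g j).2 : ℕ) ≤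
          Real.exp ((S + L) * B) := by
        have h2 := hpw (x₁ : K) B ((g j).2 : ℕ) (hx₁B v)
        have h3 := hpw (x₂ : K) B (S + L - (g j).2 : ℕ) (hx₂B v)
        refine (mul_le_mul h2 h3 (pow_nonneg (v.1.nonneg _) _) (Real.exp_nonneg _)).trans ?_
        rw [← Real.exp_add, Nat.cast_sub ht]
        apply Real.exp_le_exp.mpr
        apply le_of_eq; push_cast; ring
      have e4 : (v.1 (y₂ : K) ^ ((g j).1 : ℕ) * v.1 (y₁ : K) ^ (R - (g j).1 : ℕ) *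
          (v.1 (x₁ : K) ^ ((g j).2 : ℕ) * v.1 (x₂ : K) ^ (S + L - (g j).2 : ℕ))) ^ (i.2 : ℕ) ≤
          Real.exp ((i.2 : ℕ) * (R * A + (S + L) * B)) := by
        rw [Real.exp_nat_mul, Real.exp_add]
        apply pow_le_pow_left₀
        · exact mul_nonneg (mul_nonneg (pow_nonneg (v.1.nonneg _) _) (pow_nonneg (v.1.nonneg _) _))
            (mul_nonneg (pow_nonneg (v.1.nonneg _) _) (pow_nonneg (v.1.nonneg _) _))
        · exact mul_le_mul e2 e3 (mul_nonneg (pow_nonneg (v.1.nonneg _) _)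
            (pow_nonneg (v.1.nonneg _) _)) (Real.exp_nonneg _)
      rw [Real.exp_add]
      refine mul_le_mul e1 e4 ?_ (Real.exp_nonneg _)
      exact pow_nonneg (mul_nonneg (mul_nonneg (pow_nonneg (v.1.nonneg _) _)
        (pow_nonneg (v.1.nonneg _) _))
            (mul_nonneg (pow_nonneg (v.1.nonneg _) _) (pow_nonneg (v.1.nonneg _) _))) _
    have h2 := abv_det_le v.1 _ (fun i : Fin K' × Fin L =>
      Real.exp (C + (i.2 : ℕ) * (R * A + (S + L) * B))) hentry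
    refine h2.trans ?_
    rw [hcard, ← Real.exp_sum, Finset.sum_add_distrib, Finset.sum_const, Finset.card_univ, hcard,
      Fintype.sum_prod_type]
    simp only [Finset.sum_const, Finset.card_univ, Fintype.card_fin, nsmul_eq_mul]
    rw [← Finset.sum_mul, Fin.sum_univ_eq_sum_range (fun l => (l : ℝ)) L]
    have h3 : ((K' * L).factorial : ℝ) = Real.exp (Real.log ((K' * L).factorial)) := by
      rw [Real.exp_log]; exact_mod_cast Nat.factorial_pos _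
    rw [h3, ← Real.exp_add, Real.log_exp]
    apply Real.exp_le_exp.mpr
    apply le_of_eq
    push_cast
    ring
  have := hNrm K P (K' * K' * ∑ l ∈ range L, l) D _ hP hP0 hD0 hDP hsize
  exact this

end Pool.Agent.Work.MP_2738db_nt_A.helper76
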